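import Pool.Agent.G3.LLift
import Pool.Agent.TG.Lf
import Pool.Agent.H17.GlobalLift

/-!
# G3 P Ent: from local to global lifts

`Pool.Agent.H17.exists_global_lift` is the statement for maps `ℂ → PN N`; see the proof of `TG.disc_lift` (`TG/Lf`) for the passage between `MN N` and `PN N`.
-/

set_option autoImplicit false

open Topology Filter Metric

namespace Pool.Agent.G3

open Pool.Agent.H36.BP (EN fs wd Sub)
open Pool.Agent.H14.PP (IsCone CurveAt Tan)
open Pool.Agent.H62.EF (MN pr)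
open Pool.Agent.AD (Vd)
open Pool.Agent.TG (TMap Lat Geo Gd)

variable {N k : ℕ} {X : Set (EN N)} {Λ : AddSubgroup (Vd (k + 1))} {u : EN N → Vd (k + 1)} {D : Set (Vd (k + 1))} {p : EN N → EN N → ℝ} {m : ℕ} {C : ℝ}

theorem entire_lift {f : ℂ → MN N} (hf : ∀ z, LLift f z) : ∃ F : ℂ → EN N, Differentiable ℂ F ∧ ∀ z, F z ≠ 0 ∧ f z = pr (F z) := by
  classical
  have hV : ∀ z : ℂ, ∃ v : EN N, v ≠ 0 ∧ f z = pr v := by
    intro z
    obtain ⟨Φ, -, h⟩ := hf z
    exact ⟨Φ z, h.self_of_nhds.1, h.self_of_nhds.2⟩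
  choose V hV0 hVf using hV
  have hofne : ∀ v : EN N, v ≠ 0 → v.ofLp ≠ 0 := by
    intro v hv h
    apply hv
    ext j
    exact congrFun h j
  obtain ⟨g, hg⟩ : ∃ g : ℂ → Pool.Agent.H17.PN N,
      ∀ z, g z = Projectivization.mk ℂ (V z).ofLp (hofne _ (hV0 z)) := ⟨_, fun _ => rfl⟩
  have hgh : Pool.Agent.H17.HolomorphicInto g Set.univ := by
    intro z₀ _
    obtain ⟨Φ, hΦ, h⟩ := hf z₀
    refine ⟨fun w => (Φ w).ofLp, ?_, ?_⟩
    · rw [analyticAt_pi_iff]
      intro j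
      exact ((EuclideanSpace.proj (𝕜 := ℂ) j : EN N →L[ℂ] ℂ).analyticAt _).comp hΦ
    · filter_upwards [h] with w hw
      refine ⟨hofne _ hw.1, ?_⟩
      have h1 : pr (V w) = pr (Φ w) := by
        rw [← hVf w, hw.2]
      obtain ⟨c, -, h2⟩ := (Pool.Agent.H62.EF.pr_eq_iff (hV0 _) hw.1).mp h1
      rw [hg, Projectivization.mk_eq_mk_iff']
      exact ⟨c, by rw [h2]; rfl⟩
  obtain ⟨x, hx⟩ := Pool.Agent.H17.exists_global_lift hgh
  refine ⟨fun z => WithLp.toLp 2 fun j => (x j : ℂ → ℂ) z, ?_, fun z => ?_⟩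
  · rw [differentiable_euclidean]
    intro j
    exact (x j).diff
  · obtain ⟨h1, h2⟩ := hx z
    have h4 : (WithLp.toLp 2 fun j => (x j : ℂ → ℂ) z : EN N) ≠ 0 := by
      intro h
      apply h1
      have h3 : (WithLp.toLp 2 fun j => (x j : ℂ → ℂ) z : EN N).ofLp = 0 := by
        rw [h]
        rfl
      exact h3
    refine ⟨h4, ?_⟩
    rw [hg] at h2
    obtain ⟨c, hc, h6⟩ := Pool.Agent.H17.mk_eq_mk_cross h2
    have h7 : V z = c • (WithLp.toLp 2 fun j => (x j : ℂ → ℂ) z : EN N) := by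
      ext j
      exact h6 j
    rw [hVf z, h7, Pool.Agent.H62.EF.pr_smul _ hc]

end Pool.Agent.G3
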