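import Pool.Agent.G3.CvA
import Pool.Agent.G4.M.AhlK
import Pool.Agent.H36.BP.MaxP
import Pool.Agent.H36.BP.SubA
import Pool.Agent.AD.F.PotA

/-!
# G3 P Ahl: the Ahlfors lemma for `p`

If `‖h'‖ ≤ H` on the disc of radius `r` then `p (F z) (F' z) ≤ (C₁ (1/r + H))^m` at the centre.

Plan.  Put `t = r / 2` and `w ζ = pf p F ζ * (t^2 - ‖ζ - z‖^2)^m`, continuous on `closedBall z t` (`hP.cont`), `0` on the boundary, `0 ≤ w`.  Let `ζ₀` be a maximum point on the compact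
disc.  If `w ζ₀ = 0` then `pf p F z = 0`.  Otherwise `ζ₀` is interior, `w` has a local maximum there, and
`c = fs^2/2 - C ‖h' ζ₀‖^2 - m t^2/(t^2 - ‖ζ₀ - z‖^2)^2` satisfies `c ≤ 0`: `G4.M.key` (means over small circles: `hP.jensen`; `AD.sub_sq` (`AD/F/PotA`) translated by `z`).
With `hP.le_fs` (tangent vector: `Cv.tan`): `fs^m ≥ p / C` at `ζ₀`, so with `P₀ = p(ζ₀)^(1/m)`, `C' = C^(1/m)`: `P₀^2 ≤ C'^2 (2 C H^2 + 2 m t^2/(t^2 - ‖ζ₀ - z‖^2)^2)` and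
`(w ζ₀)^(2/m) ≤ C'^2 (2 C H^2 t^4 + 2 m t^2)`, `w ζ₀ ≥ w z = pf p F z * t^(2 m)`: `(pf p F z)^(2/m) ≤ C'^2 (2 C H^2 + 2 m / t^2)`.
`C₁` depends only on `C` and `m`.
-/

set_option autoImplicit false

open Topology Filter Metric

namespace Pool.Agent.G3

open Pool.Agent.H36.BP (EN fs wd Sub)
open Pool.Agent.H14.PP (IsCone CurveAt Tan)
open Pool.Agent.H62.EF (MN pr)
open Pool.Agent.AD (Vd)
open Pool.Agent.TG (TMap Lat Geo Gd)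

variable {N k : ℕ} {X : Set (EN N)} {Λ : AddSubgroup (Vd (k + 1))} {u : EN N → Vd (k + 1)} {D : Set (Vd (k + 1))} {p : EN N → EN N → ℝ} {m : ℕ} {C : ℝ}

private theorem ahl_shift {v : ℂ → ℝ} {z₀ a : ℂ} {c : ℝ} (h : Sub v (z₀ - a) c) : Sub (fun z => v (z - a)) z₀ c := by
  refine ⟨h.1, fun c' hc' => ?_⟩
  obtain ⟨g, hg, hg0, hge⟩ := h.2 c' hc'
  have h1 : AnalyticAt ℂ (fun z : ℂ => z - a) z₀ := analyticAt_id.sub analyticAt_const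
  refine ⟨fun z => g (z - a), hg.comp_of_eq h1 rfl, hg0, ?_⟩
  have h2 : Tendsto (fun z : ℂ => z - a) (𝓝 z₀) (𝓝 (z₀ - a)) := h1.continuousAt
  filter_upwards [h2.eventually hge] with z hz
  have e : z - a - (z₀ - a) = z - z₀ := by ring
  rwa [e] at hz

private theorem ahl_fs_nonneg (x v : EN N) : 0 ≤ fs x v := div_nonneg (Real.sqrt_nonneg _) (by positivity)

theorem ahl (hP : PS X Λ u D p m C) : ∃ C₁ : ℝ, 0 < C₁ ∧ ∀ (F : ℂ → EN N) (h : ℂ → Vd (k + 1)) (z : ℂ) (r H : ℝ), 0 < r → 0 ≤ H →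
    Cv X Λ u (ball z r) F h → (∀ w ∈ ball z r, ‖deriv h w‖ ≤ H) → pf p F z ≤ (C₁ * (1 / r + H)) ^ m := by
  have hC : 1 ≤ C := hP.C_ge
  have hm : 1 ≤ m := hP.m_pos
  have hmR : (1 : ℝ) ≤ m := by exact_mod_cast hm
  refine ⟨C * (2 * C + 8 * m), by positivity, fun F h z r H hr hH hF hbd => ?_⟩
  obtain ⟨t, ht⟩ : ∃ t : ℝ, t = r / 2 := ⟨_, rfl⟩
  have ht0 : 0 < t := by rw [ht]; linarith
  have hsub : closedBall z t ⊆ ball z r := closedBall_subset_ball (by rw [ht]; linarith)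
  obtain ⟨w, hw⟩ : ∃ w : ℂ → ℝ, w = fun ζ => pf p F ζ * (t ^ 2 - ‖ζ - z‖ ^ 2) ^ m := ⟨_, rfl⟩
  have hwc : ContinuousOn w (closedBall z t) := by
    rw [hw]
    refine ((hP.cont _ F h isOpen_ball hF).mono hsub).mul ?_
    fun_prop
  obtain ⟨ζ₀, hζ₀, hmax⟩ := (isCompact_closedBall z t).exists_isMaxOn ⟨z, mem_closedBall_self ht0.le⟩ hwc
  have hwz : w z = pf p F z * (t ^ 2) ^ m := by
    rw [hw]
    simp
  have hle : w z ≤ w ζ₀ := hmax (mem_closedBall_self ht0.le)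
  have hR0 : 0 ≤ 1 / r + H := by positivity
  have ht2 : 0 < (t ^ 2) ^ m := by positivity
  rcases le_or_gt (w ζ₀) 0 with h0 | h0
  · have h1 : pf p F z ≤ 0 := by
      have h2 : pf p F z * (t ^ 2) ^ m ≤ 0 := by
        rw [← hwz]
        exact hle.trans h0
      by_contra h3
      push Not at h3
      have := mul_pos h3 ht2
      linarith
    exact h1.trans (by positivity)
  have hd0 : ‖ζ₀ - z‖ ≤ t := by rw [← dist_eq_norm]; exact hζ₀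
  have hp0 : 0 ≤ pf p F ζ₀ := hP.nonneg _ _
  have hwζ : w ζ₀ = pf p F ζ₀ * (t ^ 2 - ‖ζ₀ - z‖ ^ 2) ^ m := by rw [hw]
  have hlt : ‖ζ₀ - z‖ < t := by
    refine lt_of_le_of_ne hd0 fun h1 => ?_
    rw [hwζ, h1, sub_self, zero_pow (by omega), mul_zero] at h0
    exact lt_irrefl _ h0
  obtain ⟨δ, hδ⟩ : ∃ δ : ℝ, δ = t ^ 2 - ‖ζ₀ - z‖ ^ 2 := ⟨_, rfl⟩
  have hδ0 : 0 < δ := by
    rw [hδ]
    have := norm_nonneg (ζ₀ - z)
    nlinarith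
  have hδt : δ ≤ t ^ 2 := by
    rw [hδ]
    have := sq_nonneg ‖ζ₀ - z‖
    linarith
  have hpos : 0 < pf p F ζ₀ := by
    rcases hp0.eq_or_lt with h1 | h1
    · rw [hwζ, ← h1, zero_mul] at h0
      exact absurd h0 (lt_irrefl _)
    · exact h1
  have hζU : ζ₀ ∈ ball z r := hsub hζ₀
  obtain ⟨f, hf⟩ : ∃ f : ℝ, f = fs (F ζ₀) (deriv F ζ₀) := ⟨_, rfl⟩
  have hf0 : 0 ≤ f := by rw [hf]; exact ahl_fs_nonneg _ _
  have hs2 : Sub (fun ζ : ℂ => t ^ 2 - ‖ζ - z‖ ^ 2) ζ₀ (-(t ^ 2 / (t ^ 2 - ‖ζ₀ - z‖ ^ 2) ^ 2)) :=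
    ahl_shift (v := fun ζ : ℂ => t ^ 2 - ‖ζ‖ ^ 2) (Pool.Agent.AD.F.sub_sq hlt)
  have hU0 : ball z r ∈ 𝓝 ζ₀ := isOpen_ball.mem_nhds hζU
  have hFne : F ζ₀ ≠ 0 := by
    intro h1
    have h2 := hP.le_fs _ (hF.mem ζ₀ hζU) _ (hF.tan isOpen_ball hζU)
    have h3 : fs (F ζ₀) (deriv F ζ₀) = 0 := by
      unfold fs
      rw [h1, norm_zero]
      simp
    rw [h3, zero_pow (by omega), mul_zero] at h2
    exact absurd (lt_of_lt_of_le hpos h2) (lt_irrefl _)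
  have hneg : fs (F ζ₀) (deriv F ζ₀) ^ 2 / 2 - C * ‖deriv h ζ₀‖ ^ 2 + (m : ℝ) * -(t ^ 2 / (t ^ 2 - ‖ζ₀ - z‖ ^ 2) ^ 2) ≤ 0 := by
    refine Pool.Agent.G4.M.key (q := pf p F) (T := fun ζ : ℂ => t ^ 2 - ‖ζ - z‖ ^ 2) (by linarith) (hF.F_diff.analyticAt hU0) hFne (hF.h_diff.analyticAt hU0) hpos ?_ hs2 ?_ ?_ ?_
    · filter_upwards [isOpen_ball.mem_nhds hζU] with ζ hζ
      exact (hP.cont _ F h isOpen_ball hF).continuousAt (isOpen_ball.mem_nhds hζ)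
    · refine Eventually.of_forall fun ζ => ?_
      have h1 : Continuous fun ζ : ℂ => t ^ 2 - ‖ζ - z‖ ^ 2 := by fun_prop
      exact h1.continuousAt
    · have h1 : ball z t ∈ 𝓝 ζ₀ := isOpen_ball.mem_nhds (by rw [mem_ball, dist_eq_norm]; exact hlt)
      filter_upwards [h1] with ζ hζ
      have h2 := hmax (ball_subset_closedBall hζ)
      rw [hw] at h2
      exact h2
    · obtain ⟨ρ, hρ, hball⟩ := Metric.isOpen_iff.1 isOpen_ball ζ₀ hζU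
      have hsm : ∀ᶠ s in 𝓝[>] (0 : ℝ), s < ρ := nhdsWithin_le_nhds (Iio_mem_nhds hρ)
      filter_upwards [hsm, self_mem_nhdsWithin] with s hs hs0
      exact hP.jensen _ F h isOpen_ball hF ζ₀ s hs0 ((closedBall_subset_ball hs).trans hball) hpos
  rw [← hδ, ← hf] at hneg
  have hh : ‖deriv h ζ₀‖ ^ 2 ≤ H ^ 2 := by
    have h1 := hbd ζ₀ hζU
    have h2 := norm_nonneg (deriv h ζ₀)
    nlinarith
  have h5 : f ^ 2 ≤ 2 * C * H ^ 2 + 2 * m * (t ^ 2 / δ ^ 2) := by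
    have h6 : C * ‖deriv h ζ₀‖ ^ 2 ≤ C * H ^ 2 := mul_le_mul_of_nonneg_left hh (by linarith)
    nlinarith
  have h6 : (f * δ) ^ 2 ≤ 2 * C * H ^ 2 * (t ^ 2) ^ 2 + 2 * m * t ^ 2 := by
    have h7 : f ^ 2 * δ ^ 2 ≤ (2 * C * H ^ 2 + 2 * m * (t ^ 2 / δ ^ 2)) * δ ^ 2 := mul_le_mul_of_nonneg_right h5 (by positivity)
    have h8 : (2 * C * H ^ 2 + 2 * m * (t ^ 2 / δ ^ 2)) * δ ^ 2 = 2 * C * H ^ 2 * δ ^ 2 + 2 * m * t ^ 2 := by
      field_simp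
    have h9 : 2 * C * H ^ 2 * δ ^ 2 ≤ 2 * C * H ^ 2 * (t ^ 2) ^ 2 := by
      refine mul_le_mul_of_nonneg_left ?_ (by positivity)
      nlinarith
    rw [mul_pow]
    linarith
  obtain ⟨A, hA⟩ : ∃ A : ℝ, A = 2 * C + 8 * m := ⟨_, rfl⟩
  have hA1 : 1 ≤ A := by rw [hA]; linarith
  have h7 : 2 * C * H ^ 2 * (t ^ 2) ^ 2 + 2 * m * t ^ 2 ≤ (t ^ 2 * (A * (1 / r + H))) ^ 2 := by
    have e1 : 2 * (m : ℝ) * t ^ 2 = 8 * m * (1 / r) ^ 2 * (t ^ 2) ^ 2 := by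
      rw [ht]
      field_simp
      ring
    rw [e1]
    have e2 : (t ^ 2 * (A * (1 / r + H))) ^ 2 = A ^ 2 * (1 / r + H) ^ 2 * (t ^ 2) ^ 2 := by ring
    rw [e2, ← add_mul]
    refine mul_le_mul_of_nonneg_right ?_ (by positivity)
    have e3 : 0 ≤ 1 / r := by positivity
    have e4 : A ≤ A ^ 2 := by nlinarith
    have e5 : A * (1 / r + H) ^ 2 ≤ A ^ 2 * (1 / r + H) ^ 2 := mul_le_mul_of_nonneg_right e4 (by positivity)
    refine le_trans ?_ e5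
    rw [hA]
    have e6 : H ^ 2 ≤ (1 / r + H) ^ 2 := by nlinarith
    have e7 : (1 / r) ^ 2 ≤ (1 / r + H) ^ 2 := by nlinarith
    have e8 : 2 * C * H ^ 2 ≤ 2 * C * (1 / r + H) ^ 2 := mul_le_mul_of_nonneg_left e6 (by linarith)
    have e9 : 8 * (m : ℝ) * (1 / r) ^ 2 ≤ 8 * m * (1 / r + H) ^ 2 := mul_le_mul_of_nonneg_left e7 (by positivity)
    linarith
  have hB0 : 0 ≤ t ^ 2 * (A * (1 / r + H)) := by positivity
  have h8 : f * δ ≤ t ^ 2 * (A * (1 / r + H)) := by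
    refine (sq_le_sq₀ (by positivity) hB0).1 (h6.trans h7)
  have h9 : pf p F ζ₀ ≤ C * f ^ m := by
    rw [hf]
    exact hP.le_fs _ (hF.mem ζ₀ hζU) _ (hF.tan isOpen_ball hζU)
  have h10 : w ζ₀ ≤ C * (t ^ 2 * (A * (1 / r + H))) ^ m := by
    rw [hwζ, ← hδ]
    calc pf p F ζ₀ * δ ^ m ≤ C * f ^ m * δ ^ m := mul_le_mul_of_nonneg_right h9 (by positivity)
      _ = C * (f * δ) ^ m := by rw [mul_pow]; ring
      _ ≤ C * (t ^ 2 * (A * (1 / r + H))) ^ m :=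
        mul_le_mul_of_nonneg_left (pow_le_pow_left₀ (by positivity) h8 m) (by linarith)
  have h11 : pf p F z * (t ^ 2) ^ m ≤ C * (A * (1 / r + H)) ^ m * (t ^ 2) ^ m := by
    rw [← hwz]
    refine (hle.trans h10).trans (le_of_eq ?_)
    rw [mul_pow (t ^ 2) (A * (1 / r + H)) m]
    ring
  have h12 := le_of_mul_le_mul_right h11 ht2
  refine h12.trans ?_
  rw [← hA, mul_assoc C A, mul_pow C]
  refine mul_le_mul_of_nonneg_right ?_ (by positivity)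
  exact le_self_pow₀ hC (by omega)

end Pool.Agent.G3
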