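import Pool.Agent.G3.LLift
import Pool.Agent.G3.C.ZCount
import Pool.Agent.G3.C.EDefs
import Pool.Agent.H36.BP.CirA
import Pool.Agent.H17.Montel

/-!
# G3 P Ext: extension over isolated points with a bound for `TT`

Proof: let `g n` be an entire function with `log ‖F n‖ ≤ Re (g n) ≤ log ‖F n‖ + 2` on the circle of radius `r` around `c` (`circle_approx`, `H36/BP/CirA`).
By the maximum principle `φ n = exp (- g n) • F n` has norm at most `1` on the disc of radius `r`, and `‖φ n c‖ ≥ exp (-(K + 2))` by the mean value property of `Re (g n)` and the bound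
`TT (F n) c r ≤ K`.  Along `𝒰` the maps `φ n` converge locally uniformly to a holomorphic map `H` with `H c ≠ 0` (`montel_ultrafilter`), and `f = pr H` off `S` and off the zeros of `H`.
Divide `H` by its zeros in `closedBall c r'` (`MeromorphicOn.extract_zeros_poles`) to get `G`.
-/

set_option autoImplicit false

open Topology Filter Metric

namespace Pool.Agent.G3

open Pool.Agent.H36.BP (EN fs wd Sub)
open Pool.Agent.H14.PP (IsCone CurveAt Tan)
open Pool.Agent.H62.EF (MN pr)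
open Pool.Agent.AD (Vd)
open Pool.Agent.TG (TMap Lat Geo Gd)

variable {N k : ℕ} {X : Set (EN N)} {Λ : AddSubgroup (Vd (k + 1))} {u : EN N → Vd (k + 1)} {D : Set (Vd (k + 1))} {p : EN N → EN N → ℝ} {m : ℕ} {C : ℝ}

/-- the normalisation of one curve -/
private theorem ext_norm {F : ℂ → EN N} {c : ℂ} {r R K : ℝ} (hr : 0 < r) (hR : r < R) (hF : DifferentiableOn ℂ F (ball c R)) (h0 : ∀ z ∈ ball c R, F z ≠ 0)
    (hT : TT F c r ≤ K) : ∃ g : ℂ → ℂ, Differentiable ℂ g ∧ (∀ z ∈ closedBall c r, ‖Complex.exp (-g z) • F z‖ ≤ 1) ∧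
      Real.exp (-(K + 2)) ≤ ‖Complex.exp (-g c) • F c‖ := by
  have hsub : closedBall c r ⊆ ball c R := closedBall_subset_ball hR
  have hFc : ContinuousOn F (ball c R) := hF.continuousOn
  have hlog : ContinuousOn (fun z => Real.log ‖F z‖) (ball c R) := hFc.norm.log fun z hz => norm_ne_zero_iff.2 (h0 z hz)
  have hmaps : Set.MapsTo (fun ζ : ℂ => ζ + c) (sphere (0 : ℂ) r) (sphere c r) := by
    intro ζ hζ
    rw [mem_sphere_zero_iff_norm] at hζ
    rw [mem_sphere_iff_norm, add_sub_cancel_right, hζ]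
  have hφ : ContinuousOn (fun ζ : ℂ => Real.log ‖F (ζ + c)‖) (sphere (0 : ℂ) r) :=
    (hlog.mono (sphere_subset_closedBall.trans hsub)).comp (continuous_id.add continuous_const).continuousOn hmaps
  obtain ⟨g₀, hg₀, hb⟩ := Pool.Agent.H36.BP.circle_approx hr _ hφ one_pos
  have hgd : Differentiable ℂ fun z => g₀ (z - c) + 1 := (hg₀.comp (differentiable_id.sub_const c)).add_const 1
  have hb' : ∀ z ∈ sphere c r, Real.log ‖F z‖ ≤ (g₀ (z - c) + 1).re ∧ (g₀ (z - c) + 1).re ≤ Real.log ‖F z‖ + 2 := by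
    intro z hz
    have h1 : z - c ∈ sphere (0 : ℂ) r := by
      rw [mem_sphere_zero_iff_norm]
      rwa [mem_sphere_iff_norm] at hz
    have h2 := abs_le.1 (hb (z - c) h1)
    simp only [sub_add_cancel] at h2
    rw [Complex.add_re, Complex.one_re]
    constructor
    · linarith [h2.1]
    · linarith [h2.2]
  have hnorm : ∀ z ∈ ball c R, ‖Complex.exp (-(g₀ (z - c) + 1)) • F z‖ = Real.exp (Real.log ‖F z‖ - (g₀ (z - c) + 1).re) := by
    intro z hz
    rw [norm_smul, Complex.norm_exp, Real.exp_sub, Real.exp_log (norm_pos_iff.2 (h0 z hz)), Complex.neg_re, Real.exp_neg]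
    ring
  refine ⟨fun z => g₀ (z - c) + 1, hgd, ?_, ?_⟩
  · intro z hz
    have hdc : DiffContOnCl ℂ (fun z => Complex.exp (-(g₀ (z - c) + 1)) • F z) (ball c r) := by
      apply DifferentiableOn.diffContOnCl
      rw [closure_ball c hr.ne']
      exact (hgd.neg.cexp.differentiableOn).smul (hF.mono hsub)
    refine Complex.norm_le_of_forall_mem_frontier_norm_le isBounded_ball hdc (fun w hw => ?_) (by rwa [closure_ball c hr.ne'])
    rw [frontier_ball c hr.ne'] at hw
    rw [hnorm w (hsub (sphere_subset_closedBall hw))]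
    rw [Real.exp_le_one_iff]
    linarith [(hb' w hw).1]
  · have hcR : c ∈ ball c R := hsub (mem_closedBall_self hr.le)
    simp only
    rw [hnorm c hcR, Real.exp_le_exp]
    have hi1 : CircleIntegrable (fun z => (g₀ (z - c) + 1).re) c r := (Complex.continuous_re.comp hgd.continuous).continuousOn.circleIntegrable'
    have hi2 : CircleIntegrable (fun z => Real.log ‖F z‖ + 2) c r :=
      ((hlog.mono (sphere_subset_closedBall.trans hsub)).add continuousOn_const).circleIntegrable hr.le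
    have hi3 : CircleIntegrable (fun z => Real.log ‖F z‖) c r :=
      (hlog.mono (sphere_subset_closedBall.trans hsub)).circleIntegrable hr.le
    have hi4 : CircleIntegrable (fun _ : ℂ => (2 : ℝ)) c r := continuousOn_const.circleIntegrable hr.le
    have e1 : Real.circleAverage (fun z => (g₀ (z - c) + 1).re) c r = (g₀ (c - c) + 1).re := by
      have h1 : CircleIntegrable (fun z => g₀ (z - c) + 1) c r := hgd.continuous.continuousOn.circleIntegrable'
      have h2 := Complex.reCLM.circleAverage_comp_comm h1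
      have h3 : Real.circleAverage (fun z => g₀ (z - c) + 1) c r = g₀ (c - c) + 1 := hgd.diffContOnCl.circleAverage
      rw [h3] at h2
      exact h2
    have e2 : Real.circleAverage (fun z => Real.log ‖F z‖ + 2) c r = Real.circleAverage (fun z => Real.log ‖F z‖) c r + 2 := by
      rw [Real.circleAverage_fun_add hi3 hi4, Real.circleAverage_const]
    have h4 := Real.circleAverage_mono hi1 hi2 fun z hz => (hb' z (by rwa [abs_of_pos hr] at hz)).2
    rw [e1, e2] at h4
    unfold TT at hT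
    linarith

theorem ext_disc (𝒰 : Ultrafilter ℕ) {F : ℕ → ℂ → EN N} {f : ℂ → MN N} {S : Set ℂ} {c : ℂ} {r' r R K : ℝ} (hr' : 0 < r') (hr : r' < r) (hR : r < R)
    (hS : ∀ z, ∀ᶠ w in 𝓝[≠] z, w ∉ S) (hSc : IsClosed S) (hc : c ∉ S)
    (hF : ∀ᶠ n in (𝒰 : Filter ℕ), DifferentiableOn ℂ (F n) (ball c R) ∧ ∀ z ∈ ball c R, F n z ≠ 0)
    (hT : ∀ᶠ n in (𝒰 : Filter ℕ), TT (F n) c r ≤ K)
    (hlim : ∀ L ⊆ ball c R \ S, IsCompact L → ∀ ε : ℝ, 0 < ε → ∀ᶠ n in (𝒰 : Filter ℕ), ∀ z ∈ L, dist (pr (F n z)) (f z) < ε)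
    (hf : ∀ z ∈ ball c R, z ∉ S → LLift f z) :
    ∃ G : ℂ → EN N, DifferentiableOn ℂ G (ball c r') ∧ (∀ z ∈ ball c r', G z ≠ 0) ∧ ∀ z ∈ ball c r', z ∉ S → f z = pr (G z) := by
  have hr0 : 0 < r := hr'.trans hr
  -- the normalised curves
  have hex : ∀ n, ∃ g : ℂ → ℂ, (DifferentiableOn ℂ (F n) (ball c R) ∧ ∀ z ∈ ball c R, F n z ≠ 0) → TT (F n) c r ≤ K →
      Differentiable ℂ g ∧ (∀ z ∈ closedBall c r, ‖Complex.exp (-g z) • F n z‖ ≤ 1) ∧ Real.exp (-(K + 2)) ≤ ‖Complex.exp (-g c) • F n c‖ := by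
    intro n
    by_cases h1 : DifferentiableOn ℂ (F n) (ball c R) ∧ ∀ z ∈ ball c R, F n z ≠ 0
    · by_cases h2 : TT (F n) c r ≤ K
      · obtain ⟨g, hg⟩ := ext_norm hr0 hR h1.1 h1.2 h2
        exact ⟨g, fun _ _ => hg⟩
      · exact ⟨0, fun _ h => absurd h h2⟩
    · exact ⟨0, fun h => absurd h h1⟩
  choose g hg using hex
  have hsubR : ball c r ⊆ ball c R := ball_subset_ball hR.le
  have hdiff : ∀ᶠ n in (𝒰 : Filter ℕ), DifferentiableOn ℂ (fun z => Complex.exp (-g n z) • F n z) (ball c r) := by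
    filter_upwards [hF, hT] with n h1 h2
    exact ((hg n h1 h2).1.neg.cexp.differentiableOn).smul (h1.1.mono hsubR)
  have hbdd : ∀ᶠ n in (𝒰 : Filter ℕ), ∀ z ∈ ball c r, ‖Complex.exp (-g n z) • F n z‖ ≤ 1 := by
    filter_upwards [hF, hT] with n h1 h2 z hz
    exact (hg n h1 h2).2.1 z (ball_subset_closedBall hz)
  obtain ⟨H, hHd, hHl⟩ := Pool.Agent.H17.montel_ultrafilter 𝒰 (F := fun n z => Complex.exp (-g n z) • F n z) hdiff hbdd
  have hcr : c ∈ ball c r := mem_ball_self hr0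
  have hHc : H c ≠ 0 := by
    have h1 : Tendsto (fun n => ‖Complex.exp (-g n c) • F n c‖) 𝒰 (𝓝 ‖H c‖) := (hHl.tendsto_at hcr).norm
    have h2 : Real.exp (-(K + 2)) ≤ ‖H c‖ := by
      refine ge_of_tendsto h1 ?_
      filter_upwards [hF, hT] with n h3 h4
      exact (hg n h3 h4).2.2
    exact norm_pos_iff.1 (lt_of_lt_of_le (Real.exp_pos _) h2)
  -- `f = pr H` off `S` and off the zeros of `H`
  have hfH : ∀ z ∈ ball c r, z ∉ S → H z ≠ 0 → f z = pr (H z) := by
    intro z hz hzS hHz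
    have h1 : Tendsto (fun n => pr (Complex.exp (-g n z) • F n z)) 𝒰 (𝓝 (pr (H z))) :=
      (Pool.Agent.H62.EF.continuousAt_pr hHz).tendsto.comp (hHl.tendsto_at hz)
    have h2 : Tendsto (fun n => pr (F n z)) 𝒰 (𝓝 (f z)) := by
      rw [Metric.tendsto_nhds]
      intro ε hε
      have h3 : ({z} : Set ℂ) ⊆ ball c R \ S := by
        rw [Set.singleton_subset_iff]
        exact ⟨hsubR hz, hzS⟩
      filter_upwards [hlim {z} h3 isCompact_singleton ε hε] with n hn
      exact hn z rfl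
    have h4 : (fun n => pr (Complex.exp (-g n z) • F n z)) = fun n => pr (F n z) := by
      funext n
      exact Pool.Agent.H62.EF.pr_smul _ (Complex.exp_ne_zero _)
    rw [h4] at h1
    exact tendsto_nhds_unique h2 h1
  -- the zeros of `H` are isolated
  have hHa : AnalyticOnNhd ℂ H (ball c r) := hHd.analyticOnNhd isOpen_ball
  have hiso : ∀ z ∈ ball c r, ∀ᶠ w in 𝓝[≠] z, H w ≠ 0 := by
    intro z hz
    rcases (hHa z hz).eventually_eq_zero_or_eventually_ne_zero with h | h
    · exfalso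
      exact hHc (hHa.eqOn_zero_of_preconnected_of_eventuallyEq_zero (convex_ball c r).isPreconnected hz h hcr)
    · exact h
  have hsub : closedBall c r' ⊆ ball c r := closedBall_subset_ball hr
  have hHm : MeromorphicOn H (closedBall c r') := fun z hz => (hHa z (hsub hz)).meromorphicAt
  have hord : ∀ z : closedBall c r', meromorphicOrderAt H z ≠ ⊤ := by
    rintro ⟨z, hz⟩ h
    rw [meromorphicOrderAt_eq_top_iff] at h
    obtain ⟨w, h1, h2⟩ := (h.and (hiso z (hsub hz))).exists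
    exact h2 h1
  obtain ⟨G, hGa, hG0, hGe⟩ := hHm.extract_zeros_poles hord ((MeromorphicOn.divisor H (closedBall c r')).finiteSupport (isCompact_closedBall c r'))
  have hsub' : ball c r' ⊆ closedBall c r' := ball_subset_closedBall
  refine ⟨G, fun z hz => ((hGa z (hsub' hz)).differentiableAt).differentiableWithinAt, fun z hz => hG0 ⟨z, hsub' hz⟩, fun z hz hzS => ?_⟩
  have hzr : z ∈ ball c r := hsub (hsub' hz)
  obtain ⟨Φ, hΦ, hfΦ⟩ := hf z (hsubR hzr) hzS
  have hev : ∀ᶠ w in 𝓝[≠] z, pr (Φ w) = pr (G w) := by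
    have h1 : ∀ᶠ w in 𝓝[≠] z, w ∈ closedBall c r' := nhdsWithin_le_nhds (Filter.mem_of_superset (isOpen_ball.mem_nhds hz) hsub')
    have h2 : ∀ᶠ w in 𝓝[≠] z, w ∈ ball c r := nhdsWithin_le_nhds (isOpen_ball.mem_nhds hzr)
    have h3 : ∀ᶠ w in 𝓝[≠] z, w ∈ closedBall c r' → H w = ((∏ᶠ u, (· - u) ^ MeromorphicOn.divisor H (closedBall c r') u) • G) w := by
      have h4 := mem_codiscreteWithin.1 hGe z (hsub' hz)
      rw [disjoint_principal_right] at h4
      filter_upwards [h4] with w hw hwm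
      by_contra h5
      exact hw ⟨hwm, h5⟩
    filter_upwards [h1, h2, h3, hiso z hzr, hS z, hfΦ.filter_mono nhdsWithin_le_nhds] with w w1 w2 w3 w4 w5 w6
    rw [← w6.2, hfH w w2 w5 w4]
    have h6 := w3 w1
    rw [Pi.smul_apply'] at h6
    rw [h6]
    refine Pool.Agent.H62.EF.pr_smul _ fun h7 => ?_
    rw [h7, zero_smul] at h6
    exact w4 h6
  have hΦz : Φ z ≠ 0 := hfΦ.self_of_nhds.1
  have t1 : Tendsto (fun w => pr (Φ w)) (𝓝[≠] z) (𝓝 (pr (Φ z))) :=
    ((Pool.Agent.H62.EF.continuousAt_pr hΦz).tendsto.comp hΦ.continuousAt.tendsto).mono_left nhdsWithin_le_nhds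
  have t2 : Tendsto (fun w => pr (G w)) (𝓝[≠] z) (𝓝 (pr (G z))) :=
    ((Pool.Agent.H62.EF.continuousAt_pr (hG0 ⟨z, hsub' hz⟩)).tendsto.comp (hGa z (hsub' hz)).continuousAt.tendsto).mono_left nhdsWithin_le_nhds
  rw [hfΦ.self_of_nhds.2]
  exact tendsto_nhds_unique (t1.congr' hev) t2

end Pool.Agent.G3
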