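import Pool.Agent.G3.Defs
import Pool.Agent.TG.Gd

/-!
# G3 P LimM: limits of points of `X` over points which converge

Normalise `x i` to unit vectors; see the private lemma `lim_mem` in `TG/Y/TbA` (one-dimensional torus) and the lemmas of `TG/Gd`, `TG/SbA` (`sb_mem`).
-/

set_option autoImplicit false

open Topology Filter Metric

namespace Pool.Agent.G3

open Pool.Agent.H36.BP (EN fs wd Sub)
open Pool.Agent.H14.PP (IsCone CurveAt Tan)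
open Pool.Agent.H62.EF (MN pr)
open Pool.Agent.AD (Vd)
open Pool.Agent.TG (TMap Lat Geo Gd)

variable {N k : ℕ} {X : Set (EN N)} {Λ : AddSubgroup (Vd (k + 1))} {u : EN N → Vd (k + 1)} {D : Set (Vd (k + 1))} {p : EN N → EN N → ℝ} {m : ℕ} {C : ℝ}

theorem lim_mem (hX : IsCone X) (hu : TMap X Λ u) (hΛ : Lat Λ) {ι : Type} {l : Filter ι} [l.NeBot] {x : ι → EN N} {y : ι → Vd (k + 1)} {x₀ : EN N} {y₀ : Vd (k + 1)}
    (hx : ∀ᶠ i in l, x i ∈ X ∧ u (x i) - y i ∈ Λ) (h0 : x₀ ≠ 0) (hlx : Tendsto (fun i => pr (x i)) l (𝓝 (pr x₀))) (hly : Tendsto y l (𝓝 y₀)) :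
    x₀ ∈ X ∧ u x₀ - y₀ ∈ Λ := by
  have h1 : pr x₀ ∈ Pool.Agent.TG.Fb X Λ u y₀ :=
    (Pool.Agent.TG.fb_lim hX hΛ hu hlx hly (by
      filter_upwards [hx] with i hi
      exact Pool.Agent.TG.mem_fb hi.1 hi.2)).1
  obtain ⟨x', hx', hm', -⟩ := id h1
  obtain ⟨c, hc, hcx⟩ := (Pool.Agent.H62.EF.pr_eq_iff h0 (Pool.Agent.TG.ne_zero hX hx')).1 hm'.symm
  have hxX : x₀ ∈ X := by
    rw [hcx]
    exact hX.smul_mem x' hx' c hc
  exact ⟨hxX, Pool.Agent.TG.fb_lift hX hu h1 hxX rfl⟩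

end Pool.Agent.G3
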