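import Pool.Agent.G3.LLift
import Pool.Agent.H62.EF.PrA
import Pool.Agent.G3.C.EDefs

/-!
# G3 P Ult: ultralimits of curves in projective space

`ult`: a sequence of holomorphic curves (eventually defined on compact subsets of the open set `U`) which is equicontinuous at each point of `U` has, along an ultrafilter, a
limit `f : ℂ → MN N`; the convergence is uniform on compact subsets of `U` and `f` has local holomorphic lifts in `U`.
Plan: the projection matrices `pr x`, `x ≠ 0`, lie in the compact set `{m : ‖m‖ ≤ 1}` (`MN N` is finite dimensional), so `f z` := the limit along `𝒰` exists; equicontinuity gives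
local uniform convergence (finite covers).  Local lifts at `z₀`: `f z₀ = pr v` for a unit vector `v` (take `x_n = F n z₀ / ‖F n z₀‖`, ultralimit `v` on the compact sphere);
near `z₀` and for `𝒰`-many `n` the functions `⟨v, F n z⟩⁻¹ F n z = nv v (pr (F n z))` (`nv`, `nv_pr`, `nv_continuousAt` in `G3/C/EDefs`) are holomorphic, and they converge uniformly near
`z₀` to `nv v (f z)`, so the limit is holomorphic (`TendstoLocallyUniformlyOn.differentiableOn`) and `pr (nv v (f z)) = f z`.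
-/

set_option autoImplicit false

open Topology Filter Metric

namespace Pool.Agent.G3

open Pool.Agent.H36.BP (EN fs wd Sub)
open Pool.Agent.H14.PP (IsCone CurveAt Tan)
open Pool.Agent.H62.EF (MN pr)
open Pool.Agent.AD (Vd)
open Pool.Agent.TG (TMap Lat Geo Gd)

variable {N k : ℕ} {X : Set (EN N)} {Λ : AddSubgroup (Vd (k + 1))} {u : EN N → Vd (k + 1)} {D : Set (Vd (k + 1))} {p : EN N → EN N → ℝ} {m : ℕ} {C : ℝ}

/-- the set of the projection matrices of lines is compact -/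
private theorem ult_compact : IsCompact ((pr : EN N → MN N) '' sphere (0 : EN N) 1) := by
  refine (isCompact_sphere (0 : EN N) 1).image_of_continuousOn fun x hx => ?_
  have hx0 : x ≠ 0 := by
    rintro rfl
    simp at hx
  exact (Pool.Agent.H62.EF.continuousAt_pr hx0).continuousWithinAt

private theorem ult_mem {x : EN N} (hx : x ≠ 0) : pr x ∈ (pr : EN N → MN N) '' sphere (0 : EN N) 1 := by
  have hn : ‖x‖ ≠ 0 := norm_ne_zero_iff.mpr hx
  have hc : (((‖x‖⁻¹ : ℝ)) : ℂ) ≠ 0 := by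
    exact_mod_cast inv_ne_zero hn
  refine ⟨(((‖x‖⁻¹ : ℝ)) : ℂ) • x, ?_, Pool.Agent.H62.EF.pr_smul x hc⟩
  rw [mem_sphere_zero_iff_norm, norm_smul, Complex.norm_real, norm_inv, norm_norm]
  exact inv_mul_cancel₀ hn

/-- the limit at one point -/
private theorem ult_point (𝒰 : Ultrafilter ℕ) (x : ℕ → EN N) (hx : ∀ᶠ n in (𝒰 : Filter ℕ), x n ≠ 0) :
    ∃ y : EN N, y ≠ 0 ∧ Tendsto (fun n => pr (x n)) (𝒰 : Filter ℕ) (𝓝 (pr y)) := by
  have h1 : ((𝒰.map fun n => pr (x n) : Ultrafilter (MN N)) : Filter (MN N)) ≤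
      𝓟 ((pr : EN N → MN N) '' sphere (0 : EN N) 1) := by
    rw [Ultrafilter.coe_map, le_principal_iff, mem_map]
    filter_upwards [hx] with n hn
    exact ult_mem hn
  obtain ⟨m, ⟨y, hy, rfl⟩, hm⟩ := ult_compact.ultrafilter_le_nhds _ h1
  refine ⟨y, ?_, hm⟩
  rintro rfl
  simp at hy

theorem ult (𝒰 : Ultrafilter ℕ) {U : Set ℂ} (hU : IsOpen U) (F : ℕ → ℂ → EN N)
    (hF : ∀ z ∈ U, ∃ s : ℝ, 0 < s ∧ ∀ᶠ n in (𝒰 : Filter ℕ), DifferentiableOn ℂ (F n) (ball z s) ∧ ∀ w ∈ ball z s, F n w ≠ 0)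
    (hq : ∀ z ∈ U, ∀ ε : ℝ, 0 < ε → ∃ s : ℝ, 0 < s ∧ ∀ᶠ n in (𝒰 : Filter ℕ), ∀ w ∈ ball z s, dist (pr (F n w)) (pr (F n z)) ≤ ε) :
    ∃ f : ℂ → MN N, (∀ z ∈ U, LLift f z) ∧
      ∀ K ⊆ U, IsCompact K → ∀ ε : ℝ, 0 < ε → ∀ᶠ n in (𝒰 : Filter ℕ), ∀ z ∈ K, dist (pr (F n z)) (f z) < ε := by
  classical
  have hne : ∀ z ∈ U, ∀ᶠ n in (𝒰 : Filter ℕ), F n z ≠ 0 := by
    intro z hz
    obtain ⟨s, hs, h⟩ := hF z hz
    filter_upwards [h] with n hn
    exact hn.2 z (mem_ball_self hs)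
  have hpt : ∀ z, ∃ y : EN N, z ∈ U → y ≠ 0 ∧
      Tendsto (fun n => pr (F n z)) (𝒰 : Filter ℕ) (𝓝 (pr y)) := by
    intro z
    by_cases hz : z ∈ U
    · obtain ⟨y, h1, h2⟩ := ult_point 𝒰 (fun n => F n z) (hne z hz)
      exact ⟨y, fun _ => ⟨h1, h2⟩⟩
    · exact ⟨0, fun h => absurd h hz⟩
  choose g hg using hpt
  -- local uniform convergence
  have hloc : ∀ z₀ ∈ U, ∀ ε : ℝ, 0 < ε → ∃ s : ℝ, 0 < s ∧ ball z₀ s ⊆ U ∧
      (∀ w ∈ ball z₀ s, dist (pr (g w)) (pr (g z₀)) ≤ ε) ∧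
      ∀ᶠ n in (𝒰 : Filter ℕ), ∀ w ∈ ball z₀ s, dist (pr (g w)) (pr (F n w)) < 4 * ε := by
    intro z₀ hz₀ ε hε
    obtain ⟨s₁, hs₁, h1⟩ := hq z₀ hz₀ ε hε
    obtain ⟨s₂, hs₂, h2⟩ := Metric.isOpen_iff.1 hU z₀ hz₀
    have hU' : ball z₀ (min s₁ s₂) ⊆ U := (ball_subset_ball (min_le_right _ _)).trans h2
    have hd : ∀ w ∈ ball z₀ (min s₁ s₂), dist (pr (g w)) (pr (g z₀)) ≤ ε := by
      intro w hw
      have h3 := (hg w (hU' hw)).2
      have h4 := (hg z₀ hz₀).2
      refine le_of_tendsto (h3.dist h4) ?_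
      filter_upwards [h1] with n hn
      exact hn w (ball_subset_ball (min_le_left _ _) hw)
    refine ⟨min s₁ s₂, lt_min hs₁ hs₂, hU', hd, ?_⟩
    have h4 := (Metric.tendsto_nhds.1 (hg z₀ hz₀).2) ε hε
    filter_upwards [h1, h4] with n hn1 hn4 w hw
    have h5 := hd w hw
    have h6 := hn1 w (ball_subset_ball (min_le_left _ _) hw)
    calc dist (pr (g w)) (pr (F n w)) ≤ dist (pr (g w)) (pr (g z₀)) + dist (pr (g z₀)) (pr (F n w)) :=
          dist_triangle _ _ _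
      _ ≤ dist (pr (g w)) (pr (g z₀)) + (dist (pr (g z₀)) (pr (F n z₀)) + dist (pr (F n z₀)) (pr (F n w))) := by
          gcongr
          exact dist_triangle _ _ _
      _ < 4 * ε := by
          rw [dist_comm (pr (g z₀)) (pr (F n z₀)), dist_comm (pr (F n z₀)) (pr (F n w))]
          linarith
  refine ⟨fun z => pr (g z), ?_, ?_⟩
  · intro z₀ hz₀
    set v := g z₀ with hv
    have hv0 : v ≠ 0 := (hg z₀ hz₀).1
    have hnd : C.nd v (pr v) ≠ 0 := (C.nd_pr_ne hv0).2 (inner_self_ne_zero.2 hv0)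
    obtain ⟨δ, hδ, hδO⟩ := Metric.isOpen_iff.1 (isOpen_ne.preimage (C.nd_cont v)) (pr v) hnd
    have hcomp : IsCompact (closedBall (pr v) (δ / 2)) := isCompact_closedBall _ _
    have hO : ∀ m ∈ closedBall (pr v) (δ / 2), C.nd v m ≠ 0 := by
      intro m hm
      exact hδO (closedBall_subset_ball (by linarith) hm)
    have huc : UniformContinuousOn (C.nv v) (closedBall (pr v) (δ / 2)) :=
      hcomp.uniformContinuousOn_of_continuous fun m hm => (C.nv_continuousAt (hO m hm)).continuousWithinAt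
    rw [Metric.uniformContinuousOn_iff] at huc
    obtain ⟨s₁, hs₁, hsU, hd1, hd2⟩ := hloc z₀ hz₀ (δ / 16) (by linarith)
    obtain ⟨s₂, hs₂, hd3⟩ := hF z₀ hz₀
    have hmemg : ∀ w ∈ ball z₀ s₁, pr (g w) ∈ closedBall (pr v) (δ / 2) := by
      intro w hw
      rw [mem_closedBall]
      have := hd1 w hw
      linarith
    have hmemF : ∀ᶠ n in (𝒰 : Filter ℕ), ∀ w ∈ ball z₀ s₁, pr (F n w) ∈ closedBall (pr v) (δ / 2) := by
      filter_upwards [hd2] with n hn w hw
      rw [mem_closedBall]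
      have h1 := hd1 w hw
      have h2 := hn w hw
      calc dist (pr (F n w)) (pr v) ≤ dist (pr (F n w)) (pr (g w)) + dist (pr (g w)) (pr v) := dist_triangle _ _ _
        _ ≤ δ / 2 := by
            rw [dist_comm (pr (F n w)) (pr (g w))]
            linarith
    set s := min s₁ s₂ with hs
    have hs0 : 0 < s := lt_min hs₁ hs₂
    have hb1 : ball z₀ s ⊆ ball z₀ s₁ := ball_subset_ball (min_le_left _ _)
    have hb2 : ball z₀ s ⊆ ball z₀ s₂ := ball_subset_ball (min_le_right _ _)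
    have hdiff : ∀ᶠ n in (𝒰 : Filter ℕ), DifferentiableOn ℂ (fun w => C.nv v (pr (F n w))) (ball z₀ s) := by
      filter_upwards [hmemF, hd3] with n hn1 hn2
      have h1 : ∀ w ∈ ball z₀ s, inner ℂ v (F n w) ≠ (0 : ℂ) := fun w hw =>
        (C.nd_pr_ne (hn2.2 w (hb2 hw))).1 (hO _ (hn1 w (hb1 hw)))
      have h2 : DifferentiableOn ℂ (fun w => (inner ℂ v (F n w) : ℂ)⁻¹ • F n w) (ball z₀ s) := by
        have h3 : DifferentiableOn ℂ (F n) (ball z₀ s) := hn2.1.mono hb2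
        have h4 : DifferentiableOn ℂ (fun w => (inner ℂ v (F n w) : ℂ)) (ball z₀ s) :=
          ((innerSL ℂ v).differentiable.comp_differentiableOn h3)
        exact (h4.inv h1).smul h3
      exact h2.congr fun w hw => C.nv_pr (h1 w hw)
    have hlu : TendstoLocallyUniformlyOn (fun n w => C.nv v (pr (F n w))) (fun w => C.nv v (pr (g w)))
        (𝒰 : Filter ℕ) (ball z₀ s) := by
      rw [Metric.tendstoLocallyUniformlyOn_iff]
      intro ε hε w₀ hw₀
      obtain ⟨η, hη, huc'⟩ := huc ε hε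
      obtain ⟨s₃, hs₃, -, -, h3⟩ := hloc w₀ (hsU (hb1 hw₀)) (η / 4) (by linarith)
      refine ⟨ball z₀ s ∩ ball w₀ s₃, ?_, ?_⟩
      · exact inter_mem self_mem_nhdsWithin (mem_nhdsWithin_of_mem_nhds (ball_mem_nhds w₀ hs₃))
      · filter_upwards [h3, hmemF] with n hn1 hn2 w hw
        refine huc' _ (hmemg w (hb1 hw.1)) _ (hn2 w (hb1 hw.1)) ?_
        have := hn1 w hw.2
        linarith
    have hΦ : DifferentiableOn ℂ (fun w => C.nv v (pr (g w))) (ball z₀ s) :=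
      hlu.differentiableOn hdiff isOpen_ball
    refine ⟨fun w => C.nv v (pr (g w)), hΦ.analyticAt (ball_mem_nhds z₀ hs0), ?_⟩
    filter_upwards [ball_mem_nhds z₀ hs0] with w hw
    have hw0 : g w ≠ 0 := (hg w (hsU (hb1 hw))).1
    have hi : inner ℂ v (g w) ≠ (0 : ℂ) := (C.nd_pr_ne hw0).1 (hO _ (hmemg w (hb1 hw)))
    refine ⟨?_, (C.pr_nv hi).symm⟩
    rw [C.nv_pr hi]
    exact smul_ne_zero (inv_ne_zero hi) hw0
  · have hlu : TendstoLocallyUniformlyOn (fun n w => pr (F n w)) (fun w => pr (g w)) (𝒰 : Filter ℕ) U := by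
      rw [Metric.tendstoLocallyUniformlyOn_iff]
      intro ε hε w₀ hw₀
      obtain ⟨s₃, hs₃, -, -, h3⟩ := hloc w₀ hw₀ (ε / 4) (by linarith)
      refine ⟨ball w₀ s₃, mem_nhdsWithin_of_mem_nhds (ball_mem_nhds w₀ hs₃), ?_⟩
      filter_upwards [h3] with n hn w hw
      have := hn w hw
      linarith
    intro K hK hKc ε hε
    have h1 := (tendstoLocallyUniformlyOn_iff_forall_isCompact hU).1 hlu K hK hKc
    rw [Metric.tendstoUniformlyOn_iff] at h1
    filter_upwards [h1 ε hε] with n hn z hz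
    rw [dist_comm]
    exact hn z hz

end Pool.Agent.G3
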