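import Pool.Agent.G3.P.Lip
import Pool.Agent.G3.P.Tbd
import Pool.Agent.G3.P.Ult
import Pool.Agent.G3.P.Ent
import Pool.Agent.G3.P.Ext
import Pool.Agent.G3.P.LimM
import Pool.Agent.H62.EF.PrLip

/-!
# G3 P Cls: limits of curves over arcs

`closed_arcs`: curves `F n` over `h n`, eventually defined on every disc, `h n → H` locally uniformly, `H` not constant and `H⁻¹(D)` discrete.  Then the limit of `pr (F n)` off `H⁻¹(D)` is a
curve over `H`, with uniform convergence on compact sets off `H⁻¹(D)`.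
Plan.  `S = {z | H z ∈ D}` is closed and discrete.  `‖deriv (h n)‖` is bounded on compact sets (Cauchy estimate, `h n` is close to `H`) and `deriv (h n) → deriv H`.
For `z ∉ S`: `H z` has distance `≥ 2 δ` from `D`; `lipD` and `AD.F.pd_lip` (`AD/F/Cpt`: `fs ≤ L` gives Lipschitz continuity of `pr ∘ F n`) give the equicontinuity; `ult` on `U = Sᶜ` gives `f`.
Base point: `c ∉ S` with `deriv H c ≠ 0` (such points exist: `deriv H ≠ 0` on an open nonempty set, `S` discrete); `tbd` gives `TT (F n) c r ≤ K(r)` for every `r`;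
`ext_disc` gives lifts on all discs `ball c r'`, so (extending `f` over `S` by `pr (G z)`; two lifts on different discs are proportional off `S`, so by continuity everywhere) local lifts
everywhere, `entire_lift` gives `G`.  `G z ∈ X` and `u (G z) - H z ∈ Λ`: first off `S` (`lim_mem`), then on `S` by `lim_mem` again.
-/

set_option autoImplicit false

open Topology Filter Metric

namespace Pool.Agent.G3

open Pool.Agent.H36.BP (EN fs wd Sub)
open Pool.Agent.H14.PP (IsCone CurveAt Tan)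
open Pool.Agent.H62.EF (MN pr)
open Pool.Agent.AD (Vd)
open Pool.Agent.TG (TMap Lat Geo Gd)

variable {N k : ℕ} {X : Set (EN N)} {Λ : AddSubgroup (Vd (k + 1))} {u : EN N → Vd (k + 1)} {D : Set (Vd (k + 1))} {p : EN N → EN N → ℝ} {m : ℕ} {C : ℝ}

/-- a point outside of the closed set `D` has positive distance from `D` -/
private theorem exists_gd' (hD : IsClosed D) {y : Vd (k + 1)} (hy : y ∉ D) : ∃ δ : ℝ, 0 < δ ∧ y ∈ Gd D δ := by
  have h1 : Dᶜ ∈ 𝓝 y := hD.isOpen_compl.mem_nhds hy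
  obtain ⟨δ, hδ, h⟩ := Metric.mem_nhds_iff.mp h1
  refine ⟨δ, hδ, fun b hb => ?_⟩
  by_contra hlt
  push Not at hlt
  have hb' : b ∈ ball y δ := by
    rw [mem_ball, dist_comm, dist_eq_norm]
    exact hlt
  exact h hb' hb

/-- Cauchy's estimate for the derivatives -/
private theorem deriv_close {g H : ℂ → Vd (k + 1)} {r ε : ℝ} {V : Set ℂ} (hV : IsOpen V) (hr : closedBall (0 : ℂ) (r + 1) ⊆ V) (hg : DifferentiableOn ℂ g V)
    (hH : Differentiable ℂ H) (hε : ∀ z ∈ closedBall (0 : ℂ) (r + 1), ‖g z - H z‖ < ε) {z : ℂ} (hz : z ∈ closedBall (0 : ℂ) r) :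
    ‖deriv g z - deriv H z‖ ≤ ε := by
  have hsub : closedBall z 1 ⊆ closedBall (0 : ℂ) (r + 1) := by
    refine closedBall_subset_closedBall' ?_
    have := mem_closedBall.mp hz
    linarith
  have hgd : DifferentiableOn ℂ g (closedBall z 1) := hg.mono (hsub.trans hr)
  have hd : DiffContOnCl ℂ (fun w => g w - H w) (ball z 1) := by
    have h1 : DifferentiableOn ℂ (fun w => g w - H w) (closedBall z 1) := hgd.sub hH.differentiableOn
    have h2 : DifferentiableOn ℂ (fun w => g w - H w) (closure (ball z 1)) := h1.mono closure_ball_subset_closedBall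
    exact h2.diffContOnCl
  have h1 := Complex.norm_deriv_le_of_forall_mem_sphere_norm_le (c := z) one_pos hd (C := ε) fun w hw =>
    (hε w (hsub (sphere_subset_closedBall hw))).le
  have hgz : DifferentiableAt ℂ g z := hg.differentiableAt (hV.mem_nhds (hr (hsub (mem_closedBall_self zero_le_one))))
  rw [deriv_fun_sub hgz (hH z), div_one] at h1
  exact h1

theorem closed_arcs (hX : IsCone X) (hu : TMap X Λ u) (hΛ : Lat Λ) (hD : IsClosed D) (hP : PS X Λ u D p m C) (𝒰 : Ultrafilter ℕ)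
    {F : ℕ → ℂ → EN N} {h : ℕ → ℂ → Vd (k + 1)} {H : ℂ → Vd (k + 1)}
    (hF : ∀ r : ℝ, ∀ᶠ n in (𝒰 : Filter ℕ), Cv X Λ u (ball 0 r) (F n) (h n)) (hH : Differentiable ℂ H)
    (hh : ∀ r ε : ℝ, 0 < ε → ∀ᶠ n in (𝒰 : Filter ℕ), ∀ z ∈ closedBall (0 : ℂ) r, ‖h n z - H z‖ < ε)
    (hS : ∀ z, ∀ᶠ w in 𝓝[≠] z, H w ∉ D) (hnc : ∃ z, deriv H z ≠ 0) :
    ∃ G : ℂ → EN N, Cv X Λ u Set.univ G H ∧
      ∀ K : Set ℂ, IsCompact K → (∀ z ∈ K, H z ∉ D) → ∀ ε : ℝ, 0 < ε → ∀ᶠ n in (𝒰 : Filter ℕ), ∀ z ∈ K, dist (pr (F n z)) (pr (G z)) < ε := by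
  classical
  have hHc : Continuous H := hH.continuous
  obtain ⟨S, hSdef⟩ : ∃ S : Set ℂ, S = {z | H z ∈ D} := ⟨_, rfl⟩
  have hmemS : ∀ z, z ∈ S ↔ H z ∈ D := fun z => by rw [hSdef]; rfl
  have hScl : IsClosed S := by rw [hSdef]; exact hD.preimage hHc
  have hSdisc : ∀ z, ∀ᶠ w in 𝓝[≠] z, w ∉ S := fun z => (hS z).mono fun w hw => fun h => hw ((hmemS w).mp h)
  -- curves on large discs
  have hcurve : ∀ r : ℝ, ∀ᶠ n in (𝒰 : Filter ℕ), Cv X Λ u (ball 0 (r + 1)) (F n) (h n) ∧ closedBall (0 : ℂ) r ⊆ ball 0 (r + 1) := by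
    intro r
    filter_upwards [hF (r + 1)] with n h1
    exact ⟨h1, closedBall_subset_ball (by linarith)⟩
  -- derivatives
  have hderiv : ∀ r ε : ℝ, 0 < ε → ∀ᶠ n in (𝒰 : Filter ℕ), ∀ z ∈ closedBall (0 : ℂ) r, ‖deriv (h n) z - deriv H z‖ ≤ ε := by
    intro r ε hε
    filter_upwards [hcurve (r + 1), hh (r + 1) ε hε] with n h1 h2 z hz
    exact deriv_close isOpen_ball h1.2 h1.1.h_diff hH h2 hz
  have hbound : ∀ r : ℝ, ∃ M : ℝ, 0 ≤ M ∧ ∀ᶠ n in (𝒰 : Filter ℕ), ∀ z ∈ closedBall (0 : ℂ) r, ‖deriv (h n) z‖ ≤ M := by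
    intro r
    have hdc : Continuous (deriv H) := (hH.contDiff (n := 1)).continuous_deriv le_rfl
    obtain ⟨B, hB⟩ := (isCompact_closedBall (0 : ℂ) r).exists_bound_of_continuousOn hdc.continuousOn
    refine ⟨|B| + 1, by positivity, ?_⟩
    filter_upwards [hderiv r 1 one_pos] with n hn z hz
    have h1 := hn z hz
    have h2 := hB z hz
    have h3 : ‖deriv (h n) z‖ ≤ ‖deriv (h n) z - deriv H z‖ + ‖deriv H z‖ := by
      have := norm_add_le (deriv (h n) z - deriv H z) (deriv H z)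
      rwa [sub_add_cancel] at this
    have h4 := le_abs_self B
    linarith
  -- points off `S`
  have hoff : ∀ z, z ∉ S → ∃ δ s : ℝ, 0 < δ ∧ 0 < s ∧ ∀ᶠ n in (𝒰 : Filter ℕ), ∀ w ∈ ball z s, h n w ∈ Gd D δ := by
    intro z hz
    obtain ⟨δ, hδ, hδm⟩ := exists_gd' hD (fun hzD => hz ((hmemS z).mpr hzD))
    obtain ⟨s, hs, hsb⟩ := Metric.continuousAt_iff.mp (hHc.continuousAt (x := z)) (δ / 4) (by positivity)
    refine ⟨δ / 2, s, by positivity, hs, ?_⟩
    filter_upwards [hh (‖z‖ + s) (δ / 4) (by positivity)] with n hn w hw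
    have hw1 : dist w z < s := mem_ball.mp hw
    have hw0 : w ∈ closedBall (0 : ℂ) (‖z‖ + s) := by
      rw [mem_closedBall, dist_zero_right]
      have := norm_le_norm_add_norm_sub' w z
      rw [← dist_eq_norm] at this
      linarith
    have h1 := hn w hw0
    have h2 : ‖H w - H z‖ < δ / 4 := by
      rw [← dist_eq_norm]
      exact hsb hw1
    have h3 : ‖h n w - H z‖ ≤ δ / 2 := by
      have h4 := norm_sub_le_norm_sub_add_norm_sub (h n w) (H w) (H z)
      linarith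
    have h5 := Pool.Agent.TG.gd_near hδm h3
    have h6 : δ - δ / 2 = δ / 2 := by ring
    rwa [h6] at h5
  -- equicontinuity
  have heq : ∀ z, z ∉ S → ∃ L s : ℝ, 0 < L ∧ 0 < s ∧ ∀ᶠ n in (𝒰 : Filter ℕ), DifferentiableOn ℂ (F n) (ball z s) ∧ (∀ w ∈ ball z s, F n w ≠ 0) ∧
      ∀ w ∈ ball z s, dist (pr (F n w)) (pr (F n z)) ≤ L * ‖w - z‖ := by
    intro z hz
    obtain ⟨δ, s, hδ, hs, hev⟩ := hoff z hz
    obtain ⟨L, hL, hLip⟩ := lipD hP hδ
    obtain ⟨M, hM, hMb⟩ := hbound (‖z‖ + s + 1)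
    refine ⟨2 * (L * (1 / 1 + M)), s, by positivity, hs, ?_⟩
    filter_upwards [hev, hMb, hcurve (‖z‖ + s + 1)] with n h1 h2 h3
    have hsub : ∀ w ∈ ball z s, ball w 1 ⊆ closedBall (0 : ℂ) (‖z‖ + s + 1) := by
      intro w hw v hv
      rw [mem_closedBall, dist_zero_right]
      have hw1 : dist w z < s := mem_ball.mp hw
      have hv1 : dist v w < 1 := mem_ball.mp hv
      have h4 : ‖v‖ ≤ dist v w + dist w z + ‖z‖ := by
        have h5 := dist_triangle4 v w z 0
        rwa [dist_zero_right, dist_zero_right] at h5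
      linarith
    have hballs : ball z s ⊆ ball (0 : ℂ) (‖z‖ + s + 1 + 1) := fun w hw => h3.2 (hsub w hw (mem_ball_self one_pos))
    have hne : ∀ w ∈ ball z s, F n w ≠ 0 := fun w hw => Pool.Agent.TG.ne_zero hX (h3.1.mem w (hballs hw))
    refine ⟨h3.1.F_diff.mono hballs, hne, fun w hw => ?_⟩
    refine Pool.Agent.H62.EF.pr_lipschitz isOpen_ball (convex_ball z s) (h3.1.F_diff.mono hballs) hne (L := L * (1 / 1 + M)) (fun v hv => ?_) w hw z (mem_ball_self hs)
    exact hLip (F n) (h n) v 1 M one_pos hM (h3.1.mono ((hsub v hv).trans h3.2)) (fun y hy => h2 y (hsub v hv hy)) (h1 v hv)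
  -- the limit off `S`
  obtain ⟨f, hfl, hfc⟩ := ult 𝒰 hScl.isOpen_compl F (fun z hz => by
      obtain ⟨L, s, -, hs, hev⟩ := heq z hz
      exact ⟨s, hs, hev.mono fun n hn => ⟨hn.1, hn.2.1⟩⟩) (fun z hz ε hε => by
      obtain ⟨L, s, hL, hs, hev⟩ := heq z hz
      refine ⟨min s (ε / L), lt_min hs (by positivity), hev.mono fun n hn w hw => ?_⟩
      have hw1 : dist w z < min s (ε / L) := mem_ball.mp hw
      refine (hn.2.2 w (mem_ball.mpr (lt_of_lt_of_le hw1 (min_le_left _ _)))).trans ?_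
      have hw2 : ‖w - z‖ ≤ ε / L := by
        rw [← dist_eq_norm]
        exact (lt_of_lt_of_le hw1 (min_le_right _ _)).le
      calc L * ‖w - z‖ ≤ L * (ε / L) := mul_le_mul_of_nonneg_left hw2 hL.le
        _ = ε := by field_simp)
  -- the base point
  obtain ⟨z₁, hz₁⟩ := hnc
  have hdc : Continuous (deriv H) := (hH.contDiff (n := 1)).continuous_deriv le_rfl
  obtain ⟨c, hcS, hcd⟩ : ∃ c, c ∉ S ∧ deriv H c ≠ 0 := by
    have h1 : ∀ᶠ w in 𝓝[≠] z₁, deriv H w ≠ 0 := (hdc.continuousAt.eventually_ne hz₁).filter_mono nhdsWithin_le_nhds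
    obtain ⟨c, hc1, hc2⟩ := ((hSdisc z₁).and h1).exists
    exact ⟨c, hc1, hc2⟩
  -- lifts on discs
  have hdisc : ∀ r : ℝ, 0 < r → ∃ G : ℂ → EN N, DifferentiableOn ℂ G (ball c r) ∧ (∀ z ∈ ball c r, G z ≠ 0) ∧ ∀ z ∈ ball c r, z ∉ S → f z = pr (G z) := by
    intro r hr
    obtain ⟨δ, s, hδ, hs, hev⟩ := hoff c hcS
    obtain ⟨M, hM, hMb⟩ := hbound (‖c‖ + (r + 2))
    have hη : 0 < ‖deriv H c‖ / 2 := by
      have := norm_pos_iff.mpr hcd
      positivity
    obtain ⟨K, hK⟩ := tbd hP (δ := δ) (η := ‖deriv H c‖ / 2) (H := M) (r := r + 1) (R := r + 2) hδ hη hM (by linarith) (by linarith)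
    have hsub : ball c (r + 2) ⊆ closedBall (0 : ℂ) (‖c‖ + (r + 2)) := by
      intro w hw
      rw [mem_closedBall, dist_zero_right]
      have hw1 : dist w c < r + 2 := mem_ball.mp hw
      have := norm_le_norm_add_norm_sub' w c
      rw [← dist_eq_norm] at this
      linarith
    refine ext_disc 𝒰 (F := F) (f := f) (S := S) (c := c) (r' := r) (r := r + 1) (R := r + 2) (K := K) hr (by linarith) (by linarith) hSdisc hScl hcS ?_ ?_ ?_ ?_
    · filter_upwards [hcurve (‖c‖ + (r + 2))] with n h1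
      exact ⟨h1.1.F_diff.mono (hsub.trans h1.2), fun z hz => Pool.Agent.TG.ne_zero hX (h1.1.mem z (h1.2 (hsub hz)))⟩
    · filter_upwards [hcurve (‖c‖ + (r + 2)), hMb, hev, hderiv ‖c‖ (‖deriv H c‖ / 2) hη] with n h1 h2 h3 h4
      refine hK (F n) (h n) c (h1.1.mono (hsub.trans h1.2)) (fun w hw => h2 w (hsub hw)) (h3 c (mem_ball_self hs)) ?_
      have h5 := h4 c (by rw [mem_closedBall, dist_zero_right])
      have h6 : ‖deriv H c‖ ≤ ‖deriv (h n) c‖ + ‖deriv (h n) c - deriv H c‖ := by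
        have := norm_sub_le (deriv (h n) c) (deriv (h n) c - deriv H c)
        rwa [sub_sub_cancel] at this
      linarith
    · intro L hL hLc ε hε
      exact hfc L (fun z hz => (hL hz).2) hLc ε hε
    · intro z _ hz
      exact hfl z hz
  -- extension over `S`
  have hGex : ∀ z : ℂ, ∃ G : ℂ → EN N, DifferentiableOn ℂ G (ball c (dist z c + 1)) ∧ (∀ w ∈ ball c (dist z c + 1), G w ≠ 0) ∧
      ∀ w ∈ ball c (dist z c + 1), w ∉ S → f w = pr (G w) := fun z => hdisc _ (by positivity)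
  choose Gd' hG1 hG2 hG3 using hGex
  have hzb : ∀ z : ℂ, z ∈ ball c (dist z c + 1) := fun z => mem_ball.mpr (by linarith)
  obtain ⟨g, hg⟩ : ∃ g : ℂ → MN N, g = fun z => if z ∈ S then pr (Gd' z z) else f z := ⟨_, rfl⟩
  have hgS : ∀ z, z ∈ S → g z = pr (Gd' z z) := fun z hz => by rw [hg]; simp only [if_pos hz]
  have hgn : ∀ z, z ∉ S → g z = f z := fun z hz => by rw [hg]; simp only [if_neg hz]
  have hgl : ∀ z, LLift g z := by
    intro z
    by_cases hz : z ∈ S
    · refine ⟨Gd' z, (hG1 z).analyticAt (isOpen_ball.mem_nhds (hzb z)), ?_⟩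
      filter_upwards [isOpen_ball.mem_nhds (hzb z), eventually_nhdsWithin_iff.mp (hSdisc z)] with w hw1 hw2
      refine ⟨hG2 z w hw1, ?_⟩
      by_cases hwz : w = z
      · rw [hwz]
        exact hgS z hz
      · have hwS : w ∉ S := hw2 hwz
        rw [hgn w hwS]
        exact hG3 z w hw1 hwS
    · obtain ⟨Φ, hΦ, hΦe⟩ := hfl z hz
      refine ⟨Φ, hΦ, ?_⟩
      filter_upwards [hΦe, hScl.isOpen_compl.mem_nhds hz] with w hw1 hw2
      refine ⟨hw1.1, ?_⟩
      rw [hgn w hw2]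
      exact hw1.2
  obtain ⟨G, hGd, hGe⟩ := entire_lift hgl
  have hlimf : ∀ z, z ∉ S → Tendsto (fun n => pr (F n z)) (𝒰 : Filter ℕ) (𝓝 (f z)) := by
    intro z hz
    rw [Metric.tendsto_nhds]
    intro ε hε
    exact (hfc {z} (Set.singleton_subset_iff.mpr hz) isCompact_singleton ε hε).mono fun n hn => hn z (Set.mem_singleton z)
  have hlimh : ∀ z, Tendsto (fun n => h n z) (𝒰 : Filter ℕ) (𝓝 (H z)) := by
    intro z
    rw [Metric.tendsto_nhds]
    intro ε hε
    refine (hh ‖z‖ ε hε).mono fun n hn => ?_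
    rw [dist_eq_norm]
    exact hn z (by rw [mem_closedBall, dist_zero_right])
  have hoffmem : ∀ z, z ∉ S → G z ∈ X ∧ u (G z) - H z ∈ Λ := by
    intro z hz
    refine lim_mem hX hu hΛ (l := (𝒰 : Filter ℕ)) (x := fun n => F n z) (y := fun n => h n z) ?_ (hGe z).1 ?_ (hlimh z)
    · filter_upwards [hcurve ‖z‖] with n hn
      have hzb : z ∈ ball (0 : ℂ) (‖z‖ + 1) := hn.2 (by rw [mem_closedBall, dist_zero_right])
      exact ⟨hn.1.mem z hzb, hn.1.lift z hzb⟩
    · rw [← (hGe z).2, hgn z hz]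
      exact hlimf z hz
  have hmem : ∀ z, G z ∈ X ∧ u (G z) - H z ∈ Λ := by
    intro z
    by_cases hz : z ∈ S
    · refine lim_mem hX hu hΛ (l := 𝓝[≠] z) (x := fun w => G w) (y := fun w => H w) ?_ (hGe z).1 ?_ ?_
      · exact (hSdisc z).mono fun w hw => hoffmem w hw
      · have h1 : ContinuousAt (fun w => pr (G w)) z := (Pool.Agent.H62.EF.continuousAt_pr (hGe z).1).comp hGd.continuous.continuousAt
        exact h1.tendsto.mono_left nhdsWithin_le_nhds
      · exact (hHc.tendsto z).mono_left nhdsWithin_le_nhds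
    · exact hoffmem z hz
  refine ⟨G, ⟨hGd.differentiableOn, hH.differentiableOn, fun z _ => (hmem z).1, fun z _ => (hmem z).2⟩, fun K hK hKD ε hε => ?_⟩
  have hKS : K ⊆ Sᶜ := fun z hz hzS => hKD z hz ((hmemS z).mp hzS)
  filter_upwards [hfc K hKS hK ε hε] with n hn z hz
  have h1 := hn z hz
  rwa [← hgn z (hKS hz), (hGe z).2] at h1

end Pool.Agent.G3
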