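import Pool.Agent.G3.P.Ahl

/-!
# G3 P Lip: the curves are locally Lipschitz outside `D`

Immediate from `ahl` and `hP.ge_fs δ` (with `Cv.tan`).
-/

set_option autoImplicit false

open Topology Filter Metric

namespace Pool.Agent.G3

open Pool.Agent.H36.BP (EN fs wd Sub)
open Pool.Agent.H14.PP (IsCone CurveAt Tan)
open Pool.Agent.H62.EF (MN pr)
open Pool.Agent.AD (Vd)
open Pool.Agent.TG (TMap Lat Geo Gd)

variable {N k : ℕ} {X : Set (EN N)} {Λ : AddSubgroup (Vd (k + 1))} {u : EN N → Vd (k + 1)} {D : Set (Vd (k + 1))} {p : EN N → EN N → ℝ} {m : ℕ} {C : ℝ}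

theorem lipD (hP : PS X Λ u D p m C) {δ : ℝ} (hδ : 0 < δ) : ∃ L : ℝ, 0 < L ∧ ∀ (F : ℂ → EN N) (h : ℂ → Vd (k + 1)) (z : ℂ) (r H : ℝ), 0 < r → 0 ≤ H →
    Cv X Λ u (ball z r) F h → (∀ w ∈ ball z r, ‖deriv h w‖ ≤ H) → h z ∈ Gd D δ → fs (F z) (deriv F z) ≤ L * (1 / r + H) := by
  obtain ⟨C₁, hC₁, hA⟩ := ahl hP
  obtain ⟨c, hc, hG⟩ := hP.ge_fs δ hδ
  set K : ℝ := max 1 (1 / c) with hK
  have hK1 : 1 ≤ K := le_max_left _ _
  have hKc : 1 / c ≤ K := le_max_right _ _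
  have hm : m ≠ 0 := by
    have := hP.m_pos
    omega
  refine ⟨K * C₁, by positivity, ?_⟩
  intro F h z r H hr hH hF hd hz
  have hzb : z ∈ ball z r := mem_ball_self hr
  have h1 : pf p F z ≤ (C₁ * (1 / r + H)) ^ m := hA F h z r H hr hH hF hd
  have h2 : c * fs (F z) (deriv F z) ^ m ≤ pf p F z := hG (h z) hz (F z) (hF.mem z hzb) (hF.lift z hzb) _ (hF.tan isOpen_ball hzb)
  have hB : 0 ≤ C₁ * (1 / r + H) := by positivity
  have hf : 0 ≤ fs (F z) (deriv F z) := Pool.Agent.H36.BP.fs_nonneg _ _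
  have h3 : fs (F z) (deriv F z) ^ m ≤ (K * C₁ * (1 / r + H)) ^ m := by
    have h4 : fs (F z) (deriv F z) ^ m ≤ 1 / c * (C₁ * (1 / r + H)) ^ m := by
      rw [one_div, inv_mul_eq_div, le_div_iff₀ hc]
      linarith [mul_comm c (fs (F z) (deriv F z) ^ m)]
    have h5 : K ≤ K ^ m := le_self_pow₀ hK1 hm
    calc fs (F z) (deriv F z) ^ m ≤ 1 / c * (C₁ * (1 / r + H)) ^ m := h4
      _ ≤ K ^ m * (C₁ * (1 / r + H)) ^ m := mul_le_mul_of_nonneg_right (hKc.trans h5) (by positivity)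
      _ = (K * C₁ * (1 / r + H)) ^ m := by rw [← mul_pow]; ring_nf
  exact le_of_pow_le_pow_left₀ hm (by positivity) h3

end Pool.Agent.G3
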