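import Pool.Agent.G3.P.Tbd
import Pool.Agent.G3.A.Defs
import Pool.Agent.H56.G3.Lift
import Pool.Agent.H56.G3.Lift

/-!
# G3 P NLp: normalised lifts of the curves over lines

`f ∈ Hc X Λ u a y`: `f = pr ∘ F`, `F` entire over the line `h z = y + z • a` (`Cv X Λ u (ball z R) F h` for all `z`, `R`), `deriv h = a`.  `tbd` (`P/Tbd`) with `H = η = ‖a‖`, `r = 5` and `r = 5/2`, `R = 6` bounds `TT F z r ≤ K` at all `z` with
`y + z • a ∈ Gd D δ`; `norm_lift` (`H56/G3/Lift`, `R = 7`) gives `φ`; the lift is `exp (-φ z) • F z` (`IsCone`: multiplication by constants; `TMap.smul`), `c = exp (-10 K)`.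
-/

set_option autoImplicit false

open Topology Filter Metric

namespace Pool.Agent.G3

open Pool.Agent.H36.BP (EN fs wd Sub)
open Pool.Agent.H14.PP (IsCone CurveAt Tan)
open Pool.Agent.H62.EF (MN pr)
open Pool.Agent.AD (Vd Chart Charts)
open Pool.Agent.TG (TMap Lat Geo Gd)

variable {N k : ℕ} {X : Set (EN N)} {Λ : AddSubgroup (Vd (k + 1))} {u : EN N → Vd (k + 1)} {D : Set (Vd (k + 1))} {p : EN N → EN N → ℝ} {m d : ℕ} {C C₁ : ℝ}
  {Q : EN N → ℂ}

theorem nl_of_ps (hX : IsCone X) (hP : PS X Λ u D p m C) {a : Vd (k + 1)} (ha : a ≠ 0) : A.NL X Λ u D a := by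
  intro δ hδ
  have ha0 : 0 < ‖a‖ := norm_pos_iff.mpr ha
  obtain ⟨K₁, hK₁⟩ := tbd hP hδ ha0 (norm_nonneg a) (by norm_num : (0 : ℝ) < 5) (by norm_num : (5 : ℝ) < 6)
  obtain ⟨K₂, hK₂⟩ := tbd hP hδ ha0 (norm_nonneg a) (by norm_num : (0 : ℝ) < 5 / 2) (by norm_num : (5 / 2 : ℝ) < 6)
  refine ⟨Real.exp (-10 * max K₁ K₂), Real.exp_pos _, ?_⟩
  rintro y f ⟨F, ⟨hFd, hFX, hFu⟩, rfl⟩ z₀
  have hd : ∀ w : ℂ, deriv (fun z : ℂ => y + z • a) w = a := by
    intro w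
    have h1 : HasDerivAt (fun z : ℂ => y + z • a) ((1 : ℂ) • a) w := ((hasDerivAt_id w).smul_const a).const_add y
    rw [h1.deriv, one_smul]
  have hcv : ∀ (z : ℂ) (R : ℝ), Cv X Λ u (ball z R) F fun z => y + z • a := by
    intro z R
    refine ⟨hFd.differentiableOn, ?_, fun w _ => hFX w, fun w _ => hFu w⟩
    exact ((differentiable_id.smul_const a).const_add y).differentiableOn
  have h0 : ∀ z, F z ≠ 0 := fun z hz => hX.zero_notMem (hz ▸ hFX z)
  have hG : ∀ z ∈ {z : ℂ | y + z • a ∈ Gd D δ}, ‖z - z₀‖ ≤ 1 →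
      Real.circleAverage (fun w => Real.log ‖F w‖) z 5 ≤ Real.log ‖F z‖ + max K₁ K₂ ∧
      Real.circleAverage (fun w => Real.log ‖F w‖) z (5 / 2) ≤ Real.log ‖F z‖ + max K₁ K₂ := by
    intro z hz _
    have h1 := hK₁ F (fun z => y + z • a) z (hcv z 6) (fun w _ => by rw [hd w]) hz (by rw [hd z])
    have h2 := hK₂ F (fun z => y + z • a) z (hcv z 6) (fun w _ => by rw [hd w]) hz (by rw [hd z])
    unfold TT at h1 h2
    exact ⟨by linarith [le_max_left K₁ K₂], by linarith [le_max_right K₁ K₂]⟩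
  obtain ⟨φ, hφ, hle, hge⟩ := Pool.Agent.H56.G3.norm_lift (z₀ := z₀) (le_refl (7 : ℝ)) hFd.differentiableOn (fun z _ => h0 z) hG
  refine ⟨fun z => Complex.exp (-φ z) • F z, ?_, ?_, ?_⟩
  · exact hφ.neg.cexp.smul hFd.differentiableOn
  · intro z hz
    exact ⟨hX.smul_mem _ (hFX z) _ (Complex.exp_ne_zero _), (Pool.Agent.H62.EF.pr_smul _ (Complex.exp_ne_zero _)).symm, hle z hz⟩
  · intro z hz hzG
    exact hge z hzG (mem_closedBall_iff_norm.mp hz)

end Pool.Agent.G3
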